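import Mathlib
import Pool.Agent.H.MP_5f9c07_co.I

namespace Pool.Agent.Results.MP_0e5d84_co.Size

open Pool.Agent.H.MP_5f9c07_co Matroid Set Submodule Module

noncomputable def size (F : Type) [Field F] (n : ℕ) (P : ∀ m, Matroid (Fin m) → Prop) : ℕ :=
  sSup {m | ∃ M : Matroid (Fin m), M.E = univ ∧ Simp M ∧ Rep F M ∧ M.eRk M.E = n ∧
    ∀ N, N ≤m M → ¬ P m N}

instance : Fact (∀ r : ZMod 2, r ^ 2 ≠ 1 + 1 * r) := ⟨by decide⟩

abbrev K4 := QuadraticAlgebra (ZMod 2) 1 1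

instance : Fintype K4 := .ofEquiv _ (QuadraticAlgebra.equivProd 1 1).symm

def pt (c : ℕ) (i : Fin 3) : K4 := ⟨(c / 4 ^ i.1 : ℕ), (c / 4 ^ i.1 / 2 : ℕ)⟩

def v4 (e : Fin 9) : Fin 3 → K4 := pt ([17, 33, 49, 5, 9, 13, 20, 36, 52].getD e 0)

def L4 : List ℕ := [1, 2, 4, 7, 8, 16, 32, 56, 64, 73, 82, 100, 128, 138, 148, 161, 256, 268, 273, 290, 448, 511]

def G4 : List ℕ := [17, 49, 33, 4, 5, 13, 9, 16, 20, 21, 61, 41, 52, 53, 45, 25, 36, 37, 29, 57, 1, 0]

theorem ex4 : ∃ M : Matroid (Fin 9), M.E = univ ∧ Tang K4 1 M ∧ M.eRk M.E = 3 ∧ ¬ SS M := by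
  obtain ⟨M, hE, h⟩ := vm K4 v4 univ
  have c : ∀ s ∈ L4, ∃ g, msk v4 g = s := fun s hs =>
    let ⟨_, _, q⟩ := List.mem_map.1 ((by decide +kernel :
      G4.map (fun c => msk v4 (pt c)) = L4) ▸ hs); ⟨_, q⟩
  have s := h.simp' c (by decide +kernel)
  obtain ⟨t, T⟩ := h.tg hE s (nm3 (by decide +kernel) (by decide +kernel) (by decide +kernel))
    (by decide +kernel) c (by decide +kernel)
  refine ⟨M, hE, t, ?_, h.nss hE s c T (by decide +kernel)⟩
  rw [h.rk Subset.rfl, hE, show span K4 (v4 '' univ) = ⊤ from eq_top_iff.2 fun x _ =>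
    by_contra fun q => ?_]
  · simp
  obtain ⟨f, f1, f2⟩ := exists_dual_map_eq_bot_of_notMem q inferInstance
  obtain ⟨w, hw⟩ := fn1 f
  have k : ∀ a b c : K4, (∀ e, ![a, b, c] ⬝ᵥ v4 e = 0) → ![a, b, c] = 0 := by decide +kernel
  have e : ![w 0, w 1, w 2] = w := by
    ext1 i
    fin_cases i <;> rfl
  have := k (w 0) (w 1) (w 2) fun y => by
    rw [e, ← hw]
    exact (Submodule.eq_bot_iff _).1 f2 _ ⟨_, subset_span ⟨y, trivial, rfl⟩, rfl⟩
  exact f1 (by rw [hw, ← e, this, zero_dotProduct])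

section
variable {α F V : Type} [Field F] [AddCommGroup V] [Module F V] {M : Matroid α} {v : α → V}

theorem allow [Fintype α] [Fintype F] [FiniteDimensional F V] {k : ℕ} (h : Rp F M v)
    (t : ∀ N, N ≤m M → ¬ Tang F k N) {N : Matroid α} (hN : N ≤m M) (l : ∀ e ∈ N.E, N.Indep {e}) :
    Low F k N := by
  by_contra q
  obtain ⟨N, ⟨hN, l, q⟩, mn⟩ := (measure fun N : Matroid α => N.E.ncard).wf.has_min
    {N | N ≤m M ∧ (∀ e ∈ N.E, N.Indep {e}) ∧ ¬ Low F k N} ⟨N, hN, l, q⟩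
  have p (P) (a : P <m N) (b : ∀ e ∈ P.E, P.Indep {e}) : Low F k P := by_contra fun c =>
    mn P ⟨a.isMinor.trans hN, b, c⟩ (ncard_lt_ncard a.ssubset)
  obtain ⟨C, D, hC, -, -, e⟩ := hN.exists_eq_contract_delete_disjoint
  have r : Rp F N _ := e ▸ h.minor hC D
  generalize (span F (v '' C)).mkQ ∘ v = w at r
  refine t N hN ⟨r.rep, r.simp (fun e he => r.ne (l e he)) fun a ha b hb c u => by_contra fun n => ?_,
    q, fun P a b => p P a fun e he => by simpa using b e he e he⟩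
  obtain ⟨f, -, z⟩ := (r.mlow (empty_subset _) {a}).1 (p _ (isStrictMinor_iff_isMinor_ne.2
    ⟨⟨_, _, rfl⟩, fun q => (q.symm ▸ ha : a ∈ (N ／ ∅ ＼ {a}).E).2 rfl⟩) fun x hx => by
      rw [contract_empty] at *
      exact delete_indep_iff.2 ⟨l x hx.1, disjoint_singleton_left.2 hx.2⟩)
  refine q (r.low.2 ⟨f, fun x hx y => ?_⟩)
  by_cases o : x = a
  · exact z b hb (notMem_empty _) (Ne.symm n) (by rw [← u, map_smul, ← o, y, smul_zero])
  · exact z x hx (notMem_empty _) o y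

theorem plane [Finite α] {r : ℕ} (h : Rp F M v) (q : M.eRk M.E = r) :
    ∃ w : α → Fin r → F, Rp F M w := by
  have : FiniteDimensional F (span F (v '' M.E)) := .span_of_finite F ((toFinite _).image v)
  rw [h.rk Subset.rfl, Nat.cast_inj] at q
  obtain ⟨g, hg⟩ := (finBasisOfFinrankEq F _ q).equivFun.toLinearMap.exists_extend
  exact ⟨_, h.inj g fun x hx z => by simpa [z] using (LinearMap.congr_fun hg ⟨x, hx⟩).symm⟩

end

open Finset in
theorem eight {F : Type} [Field F] [Fintype F] (hF : Fintype.card F = 4) {m : ℕ}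
    {M : Matroid (Fin m)} (hE : M.E = Set.univ) (s : Simp M) (r : Rep F M) (q : M.eRk M.E = 3)
    (t : ∀ N, N ≤m M → ¬ Tang F 1 N) : m ≤ 8 := by
  classical
  by_contra hm
  obtain ⟨n, v, h⟩ := r
  obtain ⟨v, h⟩ := plane (r := 3) h q
  have u (x) : x ∈ M.E := hE ▸ Set.mem_univ x
  obtain ⟨g, hg⟩ := h.low.1 (allow h t .refl fun e he => by simpa using s e he e he)
  have (x : Fin m) : ∃ f : (Fin 3 → F) →ₗ[F] (Fin 1 → F), ∀ y, f (v y) = 0 ↔ y = x := by
    have w := Set.singleton_subset_iff.2 (u x)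
    obtain ⟨f, a, b⟩ := (h.mlow w ∅).1 (allow h t ⟨_, _, rfl⟩ fun e he => by
      rw [h.minor w ∅ _ (Set.singleton_subset_iff.2 he), linearIndepOn_singleton_iff]
      intro z
      obtain ⟨c, z⟩ := mem_span_singleton.1 (Set.image_singleton ▸
        (Submodule.Quotient.mk_eq_zero _).1 z)
      exact he.1.2 (h.par s (u _) (u _) z).symm)
    exact ⟨f, fun y => ⟨fun z => by_contra fun c => b y (u y) c (Set.notMem_empty y) z, a y⟩⟩
  choose f hf using this
  obtain ⟨S, -, hS⟩ := exists_subset_card_eq (s := (univ : Finset (Fin m))) (n := 9) (by simp; omega)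
  have : Fintype ((Fin 3 → F) →ₗ[F] (Fin 1 → F)) := @Fintype.ofFinite _ (DFunLike.finite _)
  let N (f : (Fin 3 → F) →ₗ[F] (Fin 1 → F)) : ℤ := ∑ e ∈ S, if f (v e) = 0 then 1 else 0
  have c (I : Set (Fin m)) (i : M.Indep I) : ∑ f : (Fin 3 → F) →ₗ[F] (Fin 1 → F),
      (if ∀ e ∈ I, f (v e) = 0 then 1 else 0 : ℤ) = (4 ^ (3 - I.ncard) : ℕ) := by
    have := cnt (span F (v '' I)) 1
    rw [li_rk ((h I i.subset_ground).1 i), hF, finrank_fin_fun, pow_one] at this
    rw [sum_boole, ← this, ← ncard_coe_finset, coe_filter_univ]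
    simp [span_le, Set.subset_def]
  have c0 := c ∅ M.empty_indep
  have c1 (e) := c {e} (by simpa using s e (u e) e (u e))
  have c2 (e y) := c {e, y} (s e (u e) y (u y))
  simp only [Set.mem_empty_iff_false, false_imp_iff, implies_true, if_true, Set.mem_singleton_iff,
    forall_eq, Set.mem_insert_iff, forall_eq_or_imp, ncard_empty, ncard_singleton] at c0 c1 c2
  have s1 : ∑ f, N f = 144 := by
    rw [sum_comm]
    simp only [c1, sum_const, hS]
    rfl
  have s2 : ∑ f, N f * N f = 432 := by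
    simp only [N, sum_mul_sum, ite_zero_mul_ite_zero, mul_one]
    rw [sum_comm, sum_congr rfl (g := fun _ => 48) fun x hx => ?_]
    · simp [hS]
    rw [sum_comm, ← add_sum_erase _ _ hx, sum_congr (s₁ := S.erase x) rfl (g := fun _ => 4)
      fun y hy => by rw [c2, ncard_pair (ne_of_mem_erase hy).symm]; rfl]
    simp only [and_self, c1, sum_const, card_erase_of_mem hx, hS]
    rfl
  have s3 : ∑ f, (N f - 3) ^ 2 = 144 := by
    have (x : ℤ) : (x - 3) ^ 2 = x * x - 6 * x + 9 * 1 := by ring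
    simp only [this, sum_add_distrib, sum_sub_distrib, ← mul_sum, s1, s2, c0]
    rfl
  have n0 : N 0 = 9 := by simp [N, hS]
  have n1 : N g = 0 := by simp [N, hg _ (u _)]
  have n2 : 27 ≤ #{f | N f = 1} := by
    refine le_trans (by simp [hS, hF]) (card_le_card_of_injOn (s := S ×ˢ (univ.erase (0 : F)))
      (fun x => x.2 • f x.1) (fun x hx => ?_) fun x hx y hy e => ?_)
    · simp only [coe_product, Set.mem_prod, mem_coe, mem_erase] at hx
      simp [N, hx, hf, filter_eq']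
    simp only [coe_product, Set.mem_prod, mem_coe, mem_erase] at hx hy
    have a : x.1 = y.1 := by
      simpa [hf, hy, (hf x.1 x.1).2 rfl] using (LinearMap.congr_fun e (v x.1)).symm
    obtain ⟨z, -, b⟩ := exists_mem_ne (s := S) (by omega) x.1
    exact Prod.ext a (smul_left_injective F (mt (hf x.1 z).1 b)
      (by simpa [a] using LinearMap.congr_fun e (v z)))
  have := sum_le_sum_of_subset_of_nonneg (f := fun f => (N f - 3) ^ 2)
    (Finset.subset_univ (insert 0 (insert g (univ.filter fun f => N f = 1)))) fun _ _ _ => sq_nonneg _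
  rw [s3, sum_insert (by simp [n0, show (0 : (Fin 3 → F) →ₗ[F] (Fin 1 → F)) ≠ g by
    rintro rfl; omega]), sum_insert (by simp [n1]), n0, n1,
    sum_congr rfl (g := fun _ => 4) fun f q => by rw [(mem_filter.1 q).2]; rfl] at this
  simp only [sum_const, nsmul_eq_mul] at this
  omega

theorem result : ∃ (F : Type) (_ : Field F) (_ : Fintype F), Fintype.card F = 4 ∧
    size F 3 (fun _ N => Tang F 1 N) < size F 3 fun _ N => Tang F 1 N ∧ SS N := by
  refine ⟨K4, _, _, rfl, lt_of_le_of_lt (b := 8) (csSup_le' fun m ⟨M, a, b, c, d, e⟩ =>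
    eight rfl a b c d e) (le_csSup ⟨64, ?_⟩ ?_)⟩
  · rintro m ⟨M, a, b, ⟨n, v, h⟩, d, -⟩
    obtain ⟨v, h⟩ := plane h d
    have := Fintype.card_le_of_injective v fun x y e =>
      h.par b (a ▸ mem_univ x) (a ▸ mem_univ y) (c := 1) (by simpa using e)
    rwa [Fintype.card_fin, Fintype.card_fun] at this
  obtain ⟨M, a, t, b, c⟩ := ex4
  refine ⟨M, a, t.2.1, t.1, b, fun N hN ⟨d, e⟩ => ?_⟩
  by_cases q : N = M
  · exact c (q ▸ e)
  · exact d.2.2.1 (t.2.2.2 N (isStrictMinor_iff_isMinor_ne.2 ⟨hN, q⟩) d.2.1)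

end Pool.Agent.Results.MP_0e5d84_co.Size
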